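import Mathlib
import Pool.Agent.R354.LCone
import Pool.Agent.K3h2.LZ.Win

set_option autoImplicit false

/-! # Blocks of digits of small linear complexity, for numbers with a simultaneous measure

`Cut b x s k L`: the first `L` digits of `x` in base `b` are covered by `s` blocks each of which
satisfies a linear recurrence of order at most `k`; one digit may be omitted between two blocks. -/

namespace Pool.Agent.K3h2.BL

open Finset
open Pool.Agent.H831R3.LC (dig)
open Pool.Agent.W47.JL (Meas)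
open Pool.Agent.R354.LC (G G_nonneg approx_one G_linear)

/-- the digits of `x` in base `b` from the `(u+1)`-st to the `v`-th satisfy a linear recurrence of
order at most `k` over `ℚ` -/
def Rec (b : ℕ) (x : ℝ) (u v k : ℕ) : Prop :=
  ∃ m ≤ k, ∃ c : ℕ → ℚ, ∀ i, u + i + m < v →
    (dig x b (u + i + m + 1) : ℚ) = ∑ l ∈ range m, c l * (dig x b (u + i + l + 1) : ℚ)

/-- the first `L` digits of `x` are covered by `s` blocks of linear complexity at most `k`; one digit
may be omitted between two blocks -/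
def Cut (b : ℕ) (x : ℝ) (s k L : ℕ) : Prop :=
  ∃ u v : ℕ → ℕ, u 0 = 0 ∧ u s = L ∧
    ∀ i < s, u i ≤ v i ∧ u (i + 1) ≤ v i + 1 ∧ Rec b x (u i) (v i) k

theorem dig_shift (x : ℝ) (b u i : ℕ) : dig (x * (b : ℝ) ^ u) b i = dig x b (u + i) := by
  unfold dig
  rw [mul_assoc, ← pow_add]

/-- the approximation which belongs to a block -/
theorem block (b : ℕ) (hb : 2 ≤ b) (x : ℝ) (u v k : ℕ) (h : Rec b x u v k) (g : ℝ)
    (hg : ∀ m ≤ k, G m * Real.log b ≤ g) :
    ∃ (q : ℕ) (p : ℤ), 1 ≤ q ∧ (q : ℝ) ≤ Real.exp (g + u * Real.log b) ∧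
      |(q : ℝ) * x - p| * Real.exp ((v - u) * Real.log b) ≤ Real.exp (g + Real.log b) := by
  obtain ⟨m, hmk, c, hc⟩ := h
  have hb1 : (1 : ℝ) < b := by exact_mod_cast (by omega : 1 < b)
  have hb0 : (0 : ℝ) < b := by linarith
  have hlb : 0 < Real.log b := Real.log_pos hb1
  obtain ⟨q, p, hq1, hq2, hp⟩ := approx_one (x * (b : ℝ) ^ u) b hb (v - u) m c (fun i hi => by
    have h1 := hc i (by omega)
    rw [dig_shift]
    simp only [dig_shift]
    have e1 : u + (i + m + 1) = u + i + m + 1 := by omega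
    rw [e1, h1]
    refine Finset.sum_congr rfl fun l _ => ?_
    have e2 : u + (i + l + 1) = u + i + l + 1 := by omega
    rw [e2])
  have hq0 : (0 : ℝ) < q := by exact_mod_cast hq1
  have hgm := hg m hmk
  refine ⟨q * b ^ u, p, Nat.one_le_iff_ne_zero.2 (Nat.mul_ne_zero (by omega)
    (pow_ne_zero _ (by omega))), ?_, ?_⟩
  · have h1 : (q : ℝ) ≤ Real.exp g := by
      rw [← Real.exp_log hq0]
      exact Real.exp_le_exp.2 (hq2.trans hgm)
    have h2 : (b : ℝ) ^ u = Real.exp (u * Real.log b) := by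
      rw [← Real.exp_log (pow_pos hb0 u), Real.log_pow]
    push_cast
    rw [h2, Real.exp_add]
    exact mul_le_mul_of_nonneg_right h1 (Real.exp_pos _).le
  · have e1 : ((q * b ^ u : ℕ) : ℝ) * x - p = (q : ℝ) * (x * (b : ℝ) ^ u) - p := by
      push_cast
      ring
    rw [e1]
    have h1 : Real.exp ((v - u) * Real.log b) ≤ (b : ℝ) ^ (v - u) := by
      have h2 : (b : ℝ) ^ (v - u) = Real.exp (((v - u : ℕ) : ℝ) * Real.log b) := by
        rw [← Real.exp_log (pow_pos hb0 (v - u)), Real.log_pow]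
      rw [h2]
      refine Real.exp_le_exp.2 (mul_le_mul_of_nonneg_right ?_ hlb.le)
      rcases le_total u v with h3 | h3
      · rw [Nat.cast_sub h3]
      · have h4 : (v : ℝ) ≤ u := by exact_mod_cast h3
        have h5 : (0 : ℝ) ≤ ((v - u : ℕ) : ℝ) := Nat.cast_nonneg _
        linarith
    calc |(q : ℝ) * (x * (b : ℝ) ^ u) - p| * Real.exp ((v - u) * Real.log b) ≤
          |(q : ℝ) * (x * (b : ℝ) ^ u) - p| * (b : ℝ) ^ (v - u) :=
          mul_le_mul_of_nonneg_left h1 (abs_nonneg _)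
      _ ≤ Real.exp ((G m + 1) * Real.log b) := hp
      _ ≤ _ := Real.exp_le_exp.2 (by linarith)

/-- **The main inequality.** `J` numbers, each one in its own base and with its own blocks. -/
theorem main (μ c0 η : ℝ) (hμ : 1 ≤ μ) (hc0 : 0 < c0) (hη : 0 < η) : ∃ C : ℝ, 0 < C ∧
    ∀ (J : ℕ) (x : Fin J → ℝ), Meas J x μ c0 0 → ∀ (b s k L : Fin J → ℕ), (∀ j, 2 ≤ b j) →
      (∀ j, Cut (b j) (x j) (s j) (k j) (L j)) →
      ∃ j, (L j : ℝ) * Real.log (b j) ≤ (∑ i ∈ range (∑ j, (s j - 1) + 1), (J * μ) ^ i) *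
        ((μ + η) * (∑ j, k j * Real.log (b j)) + C * ∑ j, Real.log (b j)) := by
  classical
  obtain ⟨ε, hε⟩ : ∃ ε : ℝ, ε = η / μ := ⟨_, rfl⟩
  have hε0 : 0 < ε := by rw [hε]; positivity
  have hμε : μ * (1 + ε) = μ + η := by rw [hε]; field_simp
  obtain ⟨K, hK0, hK⟩ := G_linear ε hε0
  have hl2 : 0 < Real.log 2 := Real.log_pos one_lt_two
  obtain ⟨C, hC⟩ : ∃ C : ℝ, C = μ * K + 3 + |Real.log c0| / Real.log 2 := ⟨_, rfl⟩
  have hC1 : 3 ≤ C := by
    rw [hC]
    have h1 : 0 ≤ |Real.log c0| / Real.log 2 := by positivity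
    have h2 : 0 ≤ μ * K := by positivity
    linarith
  refine ⟨C, by linarith, ?_⟩
  intro J x hM b s k L hb hcut
  by_contra hcon
  push Not at hcon
  have hJ : 0 < J := by
    obtain ⟨j, -⟩ := hM 1 le_rfl (fun _ => 0)
    exact lt_of_le_of_lt (Nat.zero_le _) j.2
  have hJ1 : (1 : ℝ) ≤ J := by exact_mod_cast hJ
  have hlb : ∀ j, Real.log 2 ≤ Real.log (b j) := fun j =>
    Real.log_le_log (by norm_num) (by exact_mod_cast hb j)
  have hlb0 : ∀ j, 0 < Real.log (b j) := fun j => by linarith [hlb j]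
  obtain ⟨B, hB⟩ : ∃ B : ℝ, B = ∑ j, Real.log (b j) := ⟨_, rfl⟩
  have hlB : ∀ j, Real.log (b j) ≤ B := by
    intro j
    rw [hB]
    exact Finset.single_le_sum (f := fun j => Real.log (b j)) (fun j _ => (hlb0 j).le)
      (Finset.mem_univ j)
  have hB2 : Real.log 2 ≤ B := (hlb ⟨0, hJ⟩).trans (hlB ⟨0, hJ⟩)
  have hB0 : 0 < B := by linarith
  obtain ⟨κ, hκ⟩ : ∃ κ : ℝ, κ = ∑ j, k j * Real.log (b j) := ⟨_, rfl⟩
  have hκ0 : 0 ≤ κ := by
    rw [hκ]
    exact Finset.sum_nonneg fun j _ => mul_nonneg (Nat.cast_nonneg _) (hlb0 j).le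
  obtain ⟨A, hA⟩ : ∃ A : ℝ, A = (μ + η) * κ + C * B := ⟨_, rfl⟩
  have hAB : 3 * B ≤ A := by
    rw [hA]
    have h1 : 0 ≤ (μ + η) * κ := by positivity
    nlinarith
  have hA0 : 0 < A := by linarith
  rw [← hB, ← hκ, ← hA] at hcon
  obtain ⟨w, hw⟩ : ∃ w : ℕ → ℝ, w = fun r => (∑ i ∈ range r, ((J : ℝ) * μ) ^ i) * A := ⟨_, rfl⟩
  have hJμ : 1 ≤ (J : ℝ) * μ := by nlinarith
  have hw0 : ∀ r, 0 ≤ w r := by
    intro r
    rw [hw]
    exact mul_nonneg (Finset.sum_nonneg fun i _ => by positivity) hA0.le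
  have hws : ∀ r, w (r + 1) = J * μ * w r + A := by
    intro r
    rw [hw]
    simp only
    rw [geom_sum_succ]
    ring
  have hwm : Monotone w := by
    refine monotone_nat_of_le_succ fun r => ?_
    rw [hws]
    have := hw0 r
    nlinarith
  obtain ⟨Z, hZ⟩ : ∃ Z : ℕ, Z = ∑ j, (s j - 1) := ⟨_, rfl⟩
  have hcon' : ∀ j, w (Z + 1) < L j * Real.log (b j) := by
    intro j
    have h1 := hcon j
    rw [hw, hZ]
    exact h1
  choose u v hu0 hus hblk using hcut
  -- the events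
  obtain ⟨S, hS⟩ : ∃ S : Finset ℝ, S = univ.biUnion fun j : Fin J =>
      (Icc 1 (s j - 1)).image (fun i : ℕ => (u j i : ℝ) * Real.log (b j)) := ⟨_, rfl⟩
  have hScard : S.card ≤ Z := by
    rw [hS, hZ]
    refine Finset.card_biUnion_le.trans (Finset.sum_le_sum fun j _ => ?_)
    refine Finset.card_image_le.trans ?_
    rw [Nat.card_Icc]
    omega
  obtain ⟨r, hr, hfree⟩ := Pool.Agent.K3h2.LZ.free_window S w hwm
  have hrZ : w (r + 1) ≤ w (Z + 1) := hwm (by omega)
  obtain ⟨t, ht⟩ : ∃ t : ℝ, t = w r := ⟨_, rfl⟩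
  obtain ⟨t', ht'⟩ : ∃ t' : ℝ, t' = J * μ * t + A := ⟨_, rfl⟩
  have hwt' : w (r + 1) = t' := by rw [hws, ht', ht]
  rw [hwt', ← ht] at hfree
  rw [hwt'] at hrZ
  have ht0 : 0 ≤ t := by rw [ht]; exact hw0 r
  have htt' : t < t' := by
    rw [ht']
    nlinarith
  obtain ⟨g, hg⟩ : ∃ g : Fin J → ℝ, g = fun j => ((1 + ε) * k j + K) * Real.log (b j) := ⟨_, rfl⟩
  have hGg : ∀ j, ∀ m ≤ k j, G m * Real.log (b j) ≤ g j := by
    intro j m hm
    rw [hg]
    refine mul_le_mul_of_nonneg_right ?_ (hlb0 j).le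
    have h1 := hK m
    have h2 : (m : ℝ) ≤ k j := by exact_mod_cast hm
    have h3 : (1 + ε) * (m : ℝ) ≤ (1 + ε) * k j := mul_le_mul_of_nonneg_left h2 (by linarith)
    linarith
  have hgsum : ∑ j, g j = (1 + ε) * κ + K * B := by
    rw [hg, hκ, hB, Finset.mul_sum, Finset.mul_sum, ← Finset.sum_add_distrib]
    exact Finset.sum_congr rfl fun j _ => by ring
  -- the approximations
  have happ : ∀ j, ∃ (q : ℕ) (p : ℤ), 1 ≤ q ∧ (q : ℝ) ≤ Real.exp (g j + t) ∧
      |(q : ℝ) * x j - p| * Real.exp t' ≤ Real.exp (g j + t + 2 * B) := by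
    intro j
    have hl0 := hlb0 j
    have hLj := hcon' j
    have hsj : 1 ≤ s j := by
      by_contra h0
      have h1 : s j = 0 := by omega
      have h2 := hus j
      rw [h1, hu0 j] at h2
      rw [← h2, Nat.cast_zero, zero_mul] at hLj
      linarith [hw0 (Z + 1)]
    obtain ⟨i, hi, hi1, hi2⟩ : ∃ i < s j, (u j i : ℝ) * Real.log (b j) ≤ t ∧
        t < (u j (i + 1) : ℝ) * Real.log (b j) := by
      by_contra hno
      push Not at hno
      have h1 : ∀ i ≤ s j, (u j i : ℝ) * Real.log (b j) ≤ t := by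
        intro i
        induction i with
        | zero =>
          intro _
          rw [hu0 j, Nat.cast_zero, zero_mul]
          exact ht0
        | succ i ih =>
          intro hi
          exact hno i (by omega) (ih (by omega))
      have h2 := h1 (s j) le_rfl
      rw [hus j] at h2
      linarith
    have hbig : t' < (u j (i + 1) : ℝ) * Real.log (b j) := by
      by_cases h1 : i + 1 = s j
      · rw [h1, hus j]
        linarith
      · by_contra hno
        push Not at hno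
        refine hfree _ ?_ ⟨hi2, hno⟩
        rw [hS, Finset.mem_biUnion]
        exact ⟨j, Finset.mem_univ j, Finset.mem_image_of_mem
          (fun i : ℕ => (u j i : ℝ) * Real.log (b j)) (Finset.mem_Icc.2 ⟨by omega, by omega⟩)⟩
    obtain ⟨-, huv, hrec⟩ := hblk j i hi
    obtain ⟨q, p, hq1, hq2, hp⟩ := block (b j) (hb j) (x j) (u j i) (v j i) (k j) hrec (g j)
      (hGg j)
    refine ⟨q, p, hq1, hq2.trans (Real.exp_le_exp.2 (by linarith)), ?_⟩
    have h1 : t' ≤ ((v j i : ℝ) - u j i) * Real.log (b j) + (t + Real.log (b j)) := by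
      have h2 : (u j (i + 1) : ℝ) ≤ v j i + 1 := by exact_mod_cast huv
      have h3 := mul_le_mul_of_nonneg_right h2 hl0.le
      linarith
    calc |(q : ℝ) * x j - p| * Real.exp t' ≤ |(q : ℝ) * x j - p| *
          (Real.exp (((v j i : ℝ) - u j i) * Real.log (b j)) * Real.exp (t + Real.log (b j))) := by
          refine mul_le_mul_of_nonneg_left ?_ (abs_nonneg _)
          rw [← Real.exp_add]
          exact Real.exp_le_exp.2 h1
      _ = |(q : ℝ) * x j - p| * Real.exp (((v j i : ℝ) - u j i) * Real.log (b j)) *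
          Real.exp (t + Real.log (b j)) := by ring
      _ ≤ Real.exp (g j + Real.log (b j)) * Real.exp (t + Real.log (b j)) :=
          mul_le_mul_of_nonneg_right hp (Real.exp_pos _).le
      _ ≤ _ := by
          rw [← Real.exp_add]
          refine Real.exp_le_exp.2 ?_
          have := hlB j
          linarith
  choose q p hq1 hq2 hp using happ
  have hqR : ∀ j, (1 : ℝ) ≤ q j := fun j => by exact_mod_cast hq1 j
  have hQ1 : 1 ≤ ∏ j, q j := Nat.one_le_iff_ne_zero.2
    (Finset.prod_ne_zero_iff.2 fun j _ => by have := hq1 j; omega)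
  obtain ⟨j, hj⟩ := hM (∏ j, q j) hQ1 (fun j => p j * ∏ i ∈ univ.erase j, (q i : ℤ))
  rw [Real.rpow_zero, mul_one] at hj
  obtain ⟨Γ, hΓ⟩ : ∃ Γ : ℝ, Γ = ∑ j, g j := ⟨_, rfl⟩
  obtain ⟨Qj, hQj⟩ : ∃ Qj : ℝ, Qj = ∏ i ∈ univ.erase j, (q i : ℝ) := ⟨_, rfl⟩
  have hQj0 : 0 ≤ Qj := by
    rw [hQj]
    exact Finset.prod_nonneg fun i _ => by linarith [hqR i]
  have hprod : ((∏ i, q i : ℕ) : ℝ) = q j * Qj := by
    push_cast
    rw [hQj, Finset.mul_prod_erase univ (fun i => (q i : ℝ)) (mem_univ j)]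
  have hsumg : ∑ i, (g i + t) = Γ + J * t := by
    rw [Finset.sum_add_distrib, ← hΓ, Finset.sum_const, Finset.card_univ, Fintype.card_fin,
      nsmul_eq_mul]
  have hQle : ((∏ i, q i : ℕ) : ℝ) ≤ Real.exp (Γ + J * t) := by
    rw [← hsumg, Real.exp_sum]
    push_cast
    exact Finset.prod_le_prod (fun i _ => by linarith [hqR i]) fun i _ => hq2 i
  have hQjle : Qj ≤ Real.exp (Γ + J * t - (g j + t)) := by
    have h1 : ∑ i ∈ univ.erase j, (g i + t) = Γ + J * t - (g j + t) := by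
      rw [← hsumg, ← Finset.add_sum_erase univ (fun i => g i + t) (mem_univ j)]
      ring
    rw [← h1, Real.exp_sum, hQj]
    exact Finset.prod_le_prod (fun i _ => by linarith [hqR i]) fun i _ => hq2 i
  have hQ1' : (1 : ℝ) ≤ ((∏ i, q i : ℕ) : ℝ) := by exact_mod_cast hQ1
  have hval : |((∏ i, q i : ℕ) : ℝ) * x j - ((p j * ∏ i ∈ univ.erase j, (q i : ℤ) : ℤ) : ℝ)| =
      Qj * |(q j : ℝ) * x j - p j| := by
    rw [hprod]
    push_cast
    rw [← hQj]
    have e : (q j : ℝ) * Qj * x j - (p j : ℝ) * Qj = Qj * ((q j : ℝ) * x j - p j) := by ring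
    rw [e, abs_mul, abs_of_nonneg hQj0]
  rw [hval] at hj
  have hpw : ((∏ i, q i : ℕ) : ℝ) ^ (μ - 1) ≤ Real.exp ((μ - 1) * (Γ + J * t)) := by
    calc ((∏ i, q i : ℕ) : ℝ) ^ (μ - 1) ≤ (Real.exp (Γ + J * t)) ^ (μ - 1) :=
          Real.rpow_le_rpow (by linarith) hQle (by linarith)
      _ = Real.exp ((μ - 1) * (Γ + J * t)) := by
          rw [← Real.exp_mul]; congr 1; ring
  have hfin : c0 * Real.exp t' ≤ Real.exp (μ * (Γ + J * t) + 2 * B) := by
    calc c0 * Real.exp t' ≤ ((∏ i, q i : ℕ) : ℝ) ^ (μ - 1) * (Qj * |(q j : ℝ) * x j - p j|) *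
          Real.exp t' := mul_le_mul_of_nonneg_right hj (Real.exp_pos _).le
      _ = ((∏ i, q i : ℕ) : ℝ) ^ (μ - 1) * (Qj * (|(q j : ℝ) * x j - p j| * Real.exp t')) := by
          ring
      _ ≤ Real.exp ((μ - 1) * (Γ + J * t)) * (Real.exp (Γ + J * t - (g j + t)) *
          Real.exp (g j + t + 2 * B)) := by
          refine mul_le_mul hpw ?_ (by positivity) (Real.exp_pos _).le
          exact mul_le_mul hQjle (hp j) (by positivity) (Real.exp_pos _).le
      _ = _ := by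
          rw [← Real.exp_add, ← Real.exp_add]
          congr 1
          ring
  have hlog : Real.log c0 + t' ≤ μ * (Γ + J * t) + 2 * B := by
    have h1 := Real.log_le_log (by positivity) hfin
    rwa [Real.log_mul (by positivity) (Real.exp_pos _).ne', Real.log_exp, Real.log_exp] at h1
  have h5 : |Real.log c0| ≤ |Real.log c0| / Real.log 2 * B := by
    rw [div_mul_eq_mul_div, le_div_iff₀ hl2]
    exact mul_le_mul_of_nonneg_left hB2 (abs_nonneg _)
  have h6 := neg_abs_le (Real.log c0)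
  have h7 : μ * Γ = (μ + η) * κ + μ * K * B := by
    rw [hΓ, hgsum, ← hμε]
    ring
  have h8 : A = (μ + η) * κ + μ * K * B + 3 * B + |Real.log c0| / Real.log 2 * B := by
    rw [hA, hC]
    ring
  have h9 : μ * (Γ + J * t) = μ * Γ + J * μ * t := by ring
  rw [h9, h7] at hlog
  rw [ht', h8] at hlog
  linarith

end Pool.Agent.K3h2.BL
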