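import Mathlib
import Pool.Agent.K3h2.BL.Blocks

set_option autoImplicit false

/-! # Blocks of digits of small linear complexity: large scales -/

namespace Pool.Agent.K3h2.BL

open Finset
open Pool.Agent.W47.JL (Meas)

theorem geom_le {K : ℝ} (hK : 2 ≤ K) (r : ℕ) : ∑ i ∈ range (r + 1), K ^ i ≤ 2 * K ^ r := by
  have h1 : ∀ r : ℕ, ∑ i ∈ range r, K ^ i ≤ K ^ r - 1 := by
    intro r
    induction r with
    | zero => simp
    | succ r ih =>
      rw [Finset.sum_range_succ, pow_succ]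
      have h2 : 0 < K ^ r := pow_pos (by linarith) r
      nlinarith
  rw [Finset.sum_range_succ]
  have h2 := h1 r
  linarith

/-- the final estimate -/
theorem asym (θ δ A1 A2 : ℝ) (hθ : 0 ≤ θ) (hθ1 : θ < 1) (hδ : 0 < δ) (hA2 : 0 < A2) :
    ∃ X0 : ℝ, 1 ≤ X0 ∧ ∀ X : ℝ, X0 ≤ X →
      2 * Real.exp ((1 - θ) * (1 - δ) * Real.log X + A1) * (A2 * (X ^ θ + 1)) < X := by
  obtain ⟨ρ, hρ⟩ : ∃ ρ : ℝ, ρ = (1 - θ) * δ := ⟨_, rfl⟩
  have hρ0 : 0 < ρ := by
    rw [hρ]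
    exact mul_pos (by linarith) hδ
  obtain ⟨D, hD⟩ : ∃ D : ℝ, D = Real.log (4 * A2) + A1 := ⟨_, rfl⟩
  refine ⟨max 1 (Real.exp ((D + 1) / ρ)), le_max_left _ _, fun X hX => ?_⟩
  have hX1 : 1 ≤ X := (le_max_left _ _).trans hX
  have hX0 : 0 < X := by linarith
  have hX2 : (D + 1) / ρ ≤ Real.log X := by
    rw [Real.le_log_iff_exp_le hX0]
    exact (le_max_right _ _).trans hX
  rw [div_le_iff₀ hρ0] at hX2
  have h1 : X ^ θ + 1 ≤ 2 * X ^ θ := by
    have := Real.one_le_rpow hX1 hθ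
    linarith
  have h2 : X ^ θ = Real.exp (θ * Real.log X) := by
    rw [Real.rpow_def_of_pos hX0]
    congr 1
    ring
  have hE := Real.exp_pos ((1 - θ) * (1 - δ) * Real.log X + A1)
  calc 2 * Real.exp ((1 - θ) * (1 - δ) * Real.log X + A1) * (A2 * (X ^ θ + 1)) ≤
        2 * Real.exp ((1 - θ) * (1 - δ) * Real.log X + A1) * (A2 * (2 * X ^ θ)) := by
        refine mul_le_mul_of_nonneg_left ?_ (by positivity)
        exact mul_le_mul_of_nonneg_left h1 hA2.le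
    _ = Real.exp (Real.log (4 * A2)) * (Real.exp ((1 - θ) * (1 - δ) * Real.log X + A1) *
        Real.exp (θ * Real.log X)) := by
        rw [Real.exp_log (by positivity), h2]
        ring
    _ = Real.exp (D - ρ * Real.log X + Real.log X) := by
        rw [← Real.exp_add, ← Real.exp_add, hD, hρ]
        congr 1
        ring
    _ < Real.exp (Real.log X) := by
        refine Real.exp_lt_exp.2 ?_
        linarith
    _ = X := Real.exp_log hX0

/-- **All large scales**, uniformly in the numbers and in the base. -/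
theorem allScales (J : ℕ) (hJ : 1 ≤ J) (μ c0 : ℝ) (hμ : 1 ≤ μ) (hc0 : 0 < c0)
    (hK2 : 2 ≤ (J : ℝ) * μ) (κ : ℝ) (hκ : J * Real.log (J * μ) < κ) (θ : ℝ) (hθ : 0 ≤ θ)
    (hθ1 : θ < 1) :
    ∃ N0 : ℕ, ∀ x : Fin J → ℝ, Meas J x μ c0 0 → ∀ b : ℕ, 2 ≤ b → ∀ N : ℕ, N0 ≤ N →
      ∃ j, ∀ s k : ℕ, (k : ℝ) ≤ (N : ℝ) ^ θ → Cut b (x j) s k N →
        (1 - θ) * Real.log N / κ ≤ s := by
  classical
  obtain ⟨C, hC, hmain⟩ := main μ c0 1 hμ hc0 one_pos
  have hJ1 : (1 : ℝ) ≤ J := by exact_mod_cast hJ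
  obtain ⟨K, hK⟩ : ∃ K : ℝ, K = J * μ := ⟨_, rfl⟩
  rw [← hK] at hK2 hκ
  have hlK : 0 < Real.log K := Real.log_pos (by linarith)
  have hκ0 : 0 < κ := lt_of_le_of_lt (by positivity) hκ
  obtain ⟨δ, hδ⟩ : ∃ δ : ℝ, δ = 1 - J * Real.log K / κ := ⟨_, rfl⟩
  have hδ0 : 0 < δ := by
    rw [hδ, sub_pos, div_lt_one hκ0]
    exact hκ
  obtain ⟨X0, hX01, hX0⟩ := asym θ δ 0 (J * (μ + 1 + C)) hθ hθ1 hδ0 (by positivity)
  refine ⟨⌈X0⌉₊, ?_⟩
  intro x hM b hb N hN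
  have hNX : X0 ≤ N := (Nat.le_ceil X0).trans (by exact_mod_cast hN)
  by_contra hcon
  push Not at hcon
  choose s k hk hcut hs using hcon
  have hlb : 0 < Real.log b := Real.log_pos (by exact_mod_cast (by omega : 1 < b))
  obtain ⟨j, hj⟩ := hmain J x hM (fun _ => b) s k (fun _ => N) (fun _ => hb) hcut
  rw [← hK] at hj
  have hN1 : (1 : ℝ) ≤ N := hX01.trans hNX
  have h1 : ∑ j, (k j : ℝ) * Real.log b ≤ J * ((N : ℝ) ^ θ * Real.log b) := by
    calc ∑ j, (k j : ℝ) * Real.log b ≤ ∑ _j : Fin J, (N : ℝ) ^ θ * Real.log b :=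
          Finset.sum_le_sum fun j _ => mul_le_mul_of_nonneg_right (hk j) hlb.le
      _ = J * ((N : ℝ) ^ θ * Real.log b) := by
          rw [Finset.sum_const, Finset.card_univ, Fintype.card_fin, nsmul_eq_mul]
  have h2 : ∑ _j : Fin J, Real.log b = J * Real.log b := by
    rw [Finset.sum_const, Finset.card_univ, Fintype.card_fin, nsmul_eq_mul]
  rw [h2] at hj
  have hNθ : (0 : ℝ) < (N : ℝ) ^ θ := Real.rpow_pos_of_pos (by linarith) θ
  obtain ⟨Z, hZ⟩ : ∃ Z : ℕ, Z = ∑ j, (s j - 1) := ⟨_, rfl⟩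
  rw [← hZ] at hj
  have h3 : (N : ℝ) ≤ 2 * K ^ Z * (J * (μ + 1 + C) * ((N : ℝ) ^ θ + 1)) := by
    have h4 : (N : ℝ) * Real.log b ≤
        (2 * K ^ Z * (J * (μ + 1 + C) * ((N : ℝ) ^ θ + 1))) * Real.log b := by
      refine hj.trans ?_
      have h5 : (μ + 1) * (∑ j, (k j : ℝ) * Real.log b) + C * (J * Real.log b) ≤
          (J * (μ + 1 + C) * ((N : ℝ) ^ θ + 1)) * Real.log b := by
        have h6 := mul_le_mul_of_nonneg_left h1 (by linarith : 0 ≤ μ + 1)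
        have h7 : 0 ≤ J * C * (N : ℝ) ^ θ * Real.log b := by positivity
        have h8 : 0 ≤ J * (μ + 1) * Real.log b := by positivity
        nlinarith
      calc _ ≤ (2 * K ^ Z) * ((J * (μ + 1 + C) * ((N : ℝ) ^ θ + 1)) * Real.log b) := by
            refine mul_le_mul (geom_le hK2 Z) h5 ?_ (by positivity)
            have : 0 ≤ ∑ j, (k j : ℝ) * Real.log b :=
              Finset.sum_nonneg fun j _ => mul_nonneg (Nat.cast_nonneg _) hlb.le
            positivity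
        _ = _ := by ring
    exact le_of_mul_le_mul_right h4 hlb
  have h4 : (Z : ℝ) * Real.log K ≤ (1 - θ) * (1 - δ) * Real.log N := by
    have h5 : (Z : ℝ) ≤ J * ((1 - θ) * Real.log N / κ) := by
      rw [hZ]
      push_cast
      calc ∑ j, ((s j - 1 : ℕ) : ℝ) ≤ ∑ _j : Fin J, (1 - θ) * Real.log N / κ := by
            refine Finset.sum_le_sum fun j _ => ?_
            have h6 : ((s j - 1 : ℕ) : ℝ) ≤ s j := by exact_mod_cast Nat.sub_le _ _
            linarith [hs j]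
        _ = _ := by rw [Finset.sum_const, Finset.card_univ, Fintype.card_fin, nsmul_eq_mul]
    have h6 := mul_le_mul_of_nonneg_right h5 hlK.le
    refine h6.trans (le_of_eq ?_)
    rw [hδ]
    field_simp
    ring
  have h5 : K ^ Z ≤ Real.exp ((1 - θ) * (1 - δ) * Real.log N + 0) := by
    have h6 : K ^ Z = Real.exp (Z * Real.log K) := by
      rw [← Real.exp_log (pow_pos (by linarith : 0 < K) Z), Real.log_pow]
    rw [h6, add_zero]
    exact Real.exp_le_exp.2 h4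
  have h6 := hX0 N hNX
  have h7 : 2 * K ^ Z * (J * (μ + 1 + C) * ((N : ℝ) ^ θ + 1)) ≤
      2 * Real.exp ((1 - θ) * (1 - δ) * Real.log N + 0) * (J * (μ + 1 + C) * ((N : ℝ) ^ θ + 1)) := by
    refine mul_le_mul_of_nonneg_right ?_ (by positivity)
    linarith
  linarith

/-- **One number, all bases.** -/
theorem oneNumber (J : ℕ) (hJ : 1 ≤ J) (μ c0 : ℝ) (hμ : 1 ≤ μ) (hc0 : 0 < c0)
    (hK2 : 2 ≤ (J : ℝ) * μ) (κ : ℝ) (hκ : J * Real.log (J * μ) < κ) (θ : ℝ) (hθ : 0 ≤ θ)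
    (hθ1 : θ < 1) (x : Fin J → ℝ) (hM : Meas J x μ c0 0) :
    ∃ j, ∀ b : ℕ, 2 ≤ b → ∀ N0 : ℕ, ∃ N : ℕ, N0 ≤ N ∧ ∀ s k : ℕ, (k : ℝ) ≤ (N : ℝ) ^ θ →
      Cut b (x j) s k N → (1 - θ) * Real.log N / κ ≤ s := by
  classical
  obtain ⟨C, hC, hmain⟩ := main μ c0 1 hμ hc0 one_pos
  have hJ1 : (1 : ℝ) ≤ J := by exact_mod_cast hJ
  obtain ⟨K, hK⟩ : ∃ K : ℝ, K = J * μ := ⟨_, rfl⟩
  rw [← hK] at hK2 hκ
  have hlK : 0 < Real.log K := Real.log_pos (by linarith)
  have hκ0 : 0 < κ := lt_of_le_of_lt (by positivity) hκ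
  obtain ⟨δ, hδ⟩ : ∃ δ : ℝ, δ = 1 - J * Real.log K / κ := ⟨_, rfl⟩
  have hδ0 : 0 < δ := by
    rw [hδ, sub_pos, div_lt_one hκ0]
    exact hκ
  by_contra hcon
  push Not at hcon
  choose b hb N0 hN0 using hcon
  have hl2 : 0 < Real.log 2 := Real.log_pos one_lt_two
  have hlb2 : ∀ j, Real.log 2 ≤ Real.log (b j) := fun j =>
    Real.log_le_log (by norm_num) (by exact_mod_cast hb j)
  have hlb : ∀ j, 0 < Real.log (b j) := fun j => by linarith [hlb2 j]
  obtain ⟨B, hB⟩ : ∃ B : ℝ, B = ∑ j, Real.log (b j) := ⟨_, rfl⟩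
  have hlB : ∀ j, Real.log (b j) ≤ B := by
    intro j
    rw [hB]
    exact Finset.single_le_sum (f := fun j => Real.log (b j)) (fun j _ => (hlb j).le)
      (Finset.mem_univ j)
  have hB0 : 0 < B := by
    have := hlB ⟨0, hJ⟩
    linarith [hlb ⟨0, hJ⟩]
  obtain ⟨A1, hA1⟩ : ∃ A1 : ℝ, A1 = (1 - θ) * (1 - δ) * Real.log 3 := ⟨_, rfl⟩
  obtain ⟨X0, hX01, hX0⟩ := asym θ δ A1 ((μ + 1 + C) * (3 * B)) hθ hθ1 hδ0 (by positivity)
  obtain ⟨X, hX⟩ : ∃ X : ℝ, X = X0 + ∑ j, ((N0 j : ℝ) + 1) * Real.log (b j) := ⟨_, rfl⟩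
  have hXX0 : X0 ≤ X := by
    rw [hX]
    have : 0 ≤ ∑ j, ((N0 j : ℝ) + 1) * Real.log (b j) :=
      Finset.sum_nonneg fun j _ => mul_nonneg (by positivity) (hlb j).le
    linarith
  have hX1 : 1 ≤ X := hX01.trans hXX0
  obtain ⟨N, hN⟩ : ∃ N : Fin J → ℕ, N = fun j => ⌈X / Real.log (b j)⌉₊ := ⟨_, rfl⟩
  have hNX : ∀ j, X ≤ N j * Real.log (b j) := by
    intro j
    rw [← div_le_iff₀ (hlb j), hN]
    exact Nat.le_ceil _
  have hNN0 : ∀ j, N0 j ≤ N j := by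
    intro j
    have h1 : ((N0 j : ℝ) + 1) * Real.log (b j) ≤ X := by
      rw [hX]
      have h2 : ((N0 j : ℝ) + 1) * Real.log (b j) ≤ ∑ j, ((N0 j : ℝ) + 1) * Real.log (b j) :=
        Finset.single_le_sum (f := fun j => ((N0 j : ℝ) + 1) * Real.log (b j))
          (fun j _ => mul_nonneg (by positivity) (hlb j).le) (Finset.mem_univ j)
      linarith
    have h2 := h1.trans (hNX j)
    have h3 := le_of_mul_le_mul_right h2 (hlb j)
    have h4 : (N0 j : ℝ) ≤ N j := by linarith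
    exact_mod_cast h4
  have hN3 : ∀ j, (N j : ℝ) ≤ 3 * X := by
    intro j
    have h1 : (N j : ℝ) < X / Real.log (b j) + 1 := by
      rw [hN]
      exact Nat.ceil_lt_add_one (div_nonneg (by linarith) (hlb j).le)
    have h2 : X / Real.log (b j) ≤ 2 * X := by
      rw [div_le_iff₀ (hlb j)]
      have h3 := Real.log_two_gt_d9
      have h4 := hlb2 j
      nlinarith
    linarith
  have hN1 : ∀ j, 0 < (N j : ℝ) := by
    intro j
    by_contra h
    have h1 := hNX j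
    have h2 : (N j : ℝ) * Real.log (b j) ≤ 0 :=
      mul_nonpos_of_nonpos_of_nonneg (not_lt.1 h) (hlb j).le
    linarith
  choose s k hk hcut hs using fun j => hN0 j (N j) (hNN0 j)
  obtain ⟨j, hj⟩ := hmain J x hM b s k N hb hcut
  rw [← hK] at hj
  have h1 := (hNX j).trans hj
  have h3X : (0 : ℝ) ≤ 3 * X := by linarith
  have hkj : ∀ j, (k j : ℝ) ≤ 3 * X ^ θ := by
    intro j
    calc (k j : ℝ) ≤ (N j : ℝ) ^ θ := hk j
      _ ≤ (3 * X) ^ θ := Real.rpow_le_rpow (hN1 j).le (hN3 j) hθ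
      _ = 3 ^ θ * X ^ θ := Real.mul_rpow (by norm_num) (by linarith)
      _ ≤ 3 * X ^ θ := by
        refine mul_le_mul_of_nonneg_right ?_ (Real.rpow_nonneg (by linarith) θ)
        calc (3 : ℝ) ^ θ ≤ 3 ^ (1 : ℝ) := Real.rpow_le_rpow_of_exponent_le (by norm_num) hθ1.le
          _ = 3 := Real.rpow_one 3
  have h2 : ∑ j, (k j : ℝ) * Real.log (b j) ≤ 3 * X ^ θ * B := by
    rw [hB, Finset.mul_sum]
    exact Finset.sum_le_sum fun j _ => mul_le_mul_of_nonneg_right (hkj j) (hlb j).le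
  obtain ⟨Z, hZ⟩ : ∃ Z : ℕ, Z = ∑ j, (s j - 1) := ⟨_, rfl⟩
  rw [← hZ, ← hB] at h1
  have hXθ : 0 < X ^ θ := Real.rpow_pos_of_pos (by linarith) θ
  have h3 : X ≤ 2 * K ^ Z * ((μ + 1 + C) * (3 * B) * (X ^ θ + 1)) := by
    refine h1.trans ?_
    refine mul_le_mul (geom_le hK2 Z) ?_ ?_ (by positivity)
    · have h6 := mul_le_mul_of_nonneg_left h2 (by linarith : 0 ≤ μ + 1)
      have h7 : 0 ≤ C * B * X ^ θ := by positivity
      have h8 : 0 ≤ (μ + 1) * B := by positivity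
      have h9 : 0 ≤ C * B := by positivity
      nlinarith
    · have : 0 ≤ ∑ j, (k j : ℝ) * Real.log (b j) :=
        Finset.sum_nonneg fun j _ => mul_nonneg (Nat.cast_nonneg _) (hlb j).le
      positivity
  have h4 : (Z : ℝ) * Real.log K ≤ (1 - θ) * (1 - δ) * Real.log X + A1 := by
    have h5 : (Z : ℝ) ≤ J * ((1 - θ) * Real.log (3 * X) / κ) := by
      rw [hZ]
      push_cast
      calc ∑ j, ((s j - 1 : ℕ) : ℝ) ≤ ∑ _j : Fin J, (1 - θ) * Real.log (3 * X) / κ := by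
            refine Finset.sum_le_sum fun j _ => ?_
            have h6 : ((s j - 1 : ℕ) : ℝ) ≤ s j := by exact_mod_cast Nat.sub_le _ _
            have h7 : Real.log (N j) ≤ Real.log (3 * X) := Real.log_le_log (hN1 j) (hN3 j)
            have h8 : (1 - θ) * Real.log (N j) / κ ≤ (1 - θ) * Real.log (3 * X) / κ :=
              div_le_div_of_nonneg_right (mul_le_mul_of_nonneg_left h7 (by linarith)) hκ0.le
            linarith [hs j]
        _ = _ := by rw [Finset.sum_const, Finset.card_univ, Fintype.card_fin, nsmul_eq_mul]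
    have h6 := mul_le_mul_of_nonneg_right h5 hlK.le
    refine h6.trans (le_of_eq ?_)
    rw [hA1, Real.log_mul (by norm_num) (by linarith), hδ]
    field_simp
    ring
  have h5 : K ^ Z ≤ Real.exp ((1 - θ) * (1 - δ) * Real.log X + A1) := by
    have h6 : K ^ Z = Real.exp (Z * Real.log K) := by
      rw [← Real.exp_log (pow_pos (by linarith : 0 < K) Z), Real.log_pow]
    rw [h6]
    exact Real.exp_le_exp.2 h4
  have h6 := hX0 X hXX0
  have h7 : 2 * K ^ Z * ((μ + 1 + C) * (3 * B) * (X ^ θ + 1)) ≤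
      2 * Real.exp ((1 - θ) * (1 - δ) * Real.log X + A1) *
        ((μ + 1 + C) * (3 * B) * (X ^ θ + 1)) := by
    refine mul_le_mul_of_nonneg_right ?_ (by positivity)
    linarith
  linarith

end Pool.Agent.K3h2.BL
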